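import Mathlib

/-!
# Complete intersections in products of projective spaces: definitions for the statement

`N r` is the dimension of the factor `r`; `k` is the number of factors and `l` the number of forms.

* `Vr N`: the indices of the affine coordinates `x (r, j)`, `j < N r`, in the chart where the first
  homogeneous coordinate of each factor is `1`.
* `Mono N e`: the monomials of multidegree `e` in the homogeneous coordinates.
* `coord K N r`: the homogeneous coordinates `(1, x (r, 0), x (r, 1), ..)` of the factor `r`.
* `form e a`: the form of multidegree `e` with the coefficients `a`, in the chart.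
* `ideal d a`: the ideal generated by the `l` forms of multidegrees `d i`.
-/

set_option autoImplicit false

namespace Pool.Agent.Helper47.CI

open MvPolynomial

variable {k l : ℕ}

/-- The affine coordinates. -/
abbrev Vr (N : Fin k → ℕ) := Σ r : Fin k, Fin (N r)

/-- The monomials of multidegree `e`. -/
abbrev Mono (N : Fin k → ℕ) (e : Fin k → ℕ) := ∀ r, Sym (Fin (N r + 1)) (e r)

/-- The homogeneous coordinates of the factor `r` in the chart. -/
noncomputable def coord (K : Type*) [Field K] (N : Fin k → ℕ) (r : Fin k) :
    Fin (N r + 1) → MvPolynomial (Vr N) K :=
  Fin.cons 1 fun j => X ⟨r, j⟩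

/-- The form of multidegree `e` with the coefficients `a`, in the chart. -/
noncomputable def form {K : Type*} [Field K] {N : Fin k → ℕ} (e : Fin k → ℕ) (a : Mono N e → K) :
    MvPolynomial (Vr N) K :=
  ∑ s : Mono N e, C (a s) * ∏ r, ((s r : Multiset (Fin (N r + 1))).map (coord K N r)).prod

/-- The ideal of the complete intersection. -/
noncomputable def ideal {K : Type*} [Field K] {N : Fin k → ℕ} (d : Fin l → Fin k → ℕ)
    (a : (Σ i, Mono N (d i)) → K) : Ideal (MvPolynomial (Vr N) K) :=
  Ideal.span (Set.range fun i => form (d i) fun s => a ⟨i, s⟩)

end Pool.Agent.Helper47.CI
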