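import Mathlib
import Pool.Agent.Helper47.CI.Defs
import Pool.Agent.Helper47.P.Final

/-!
# The theorem in the definitions of the statement
-/

set_option autoImplicit false

namespace Pool.Agent.Helper47.CI

open MvPolynomial AlgebraicGeometry CategoryTheory Pool.Agent.Helper15

theorem natural {k l : ℕ} (hk : 2 ≤ k) {N : Fin k → ℕ} (hN : ∀ r, l ≤ N r)
    (d : Fin l → Fin k → ℕ) (hd : ∀ i r, 0 < d i r) (h1 : ∀ r, ∑ i, d i r ≤ N r + 1)
    (h2 : ∀ r, ∑ i, d i r ≤ l + 2) :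
    ∃ Δ : MvPolynomial (Σ i, Mono N (d i)) ℚ, Δ ≠ 0 ∧
    ∀ (K : Type) [Field K] [NumberField K] (a : (Σ i, Mono N (d i)) → K), aeval a Δ ≠ 0 →
      (ideal d a).IsPrime ∧
      (∀ r : Fin k, ∀ Φ ∈ ideal d a, (∀ v ∈ Φ.vars, v.1 ≠ r) → Φ = 0) ∧
      Algebra.trdeg K (MvPolynomial (Vr N) K ⧸ ideal d a) = (∑ r, N r - l : ℕ) ∧
      ∀ (X : Scheme.{0}) (s : X ⟶ Spec (CommRingCat.of K)) [IrreducibleSpace X],
        BirationalOver K X (Spec (CommRingCat.of (MvPolynomial (Vr N) K ⧸ ideal d a))) s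
          (Spec.map (CommRingCat.ofHom
            (algebraMap K (MvPolynomial (Vr N) K ⧸ ideal d a)))) →
        PotentiallyDense K X s := by
  obtain ⟨Δ, hΔ, H⟩ := Pool.Agent.Helper47.P.final hk hN hd h1 h2
  refine ⟨Δ, hΔ, fun K _ _ a ha => ?_⟩
  have h := H K a ha
  exact ⟨h.prime, h.elim, h.trdeg, fun X s _ hX => h.dense X s hX⟩

end Pool.Agent.Helper47.CI
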